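import Pool.Agent.helper30.Mu.Asy
import Pool.Agent.helper30.Mu.Low2
import Pool.Agent.helper30.Mu.Num

set_option autoImplicit false

namespace Pool.Agent.Results.MP_b88b3b_an.ExplicitBounds

open Polynomial Filter

/-- The set of nonzero polynomials of degree at most `n` with coefficients in `{-1, 0, 1}`. -/
def F (n : ℕ) : Set ℝ[X] :=
  {p | p ≠ 0 ∧ p.natDegree ≤ n ∧ ∀ j, p.coeff j = -1 ∨ p.coeff j = 0 ∨ p.coeff j = 1}

/-- The supremum of `|p|` on `[0, 1]`. -/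
noncomputable def supNorm (p : ℝ[X]) : ℝ := sSup ((fun x => |p.eval x|) '' Set.Icc 0 1)

/-- `μ n`, the infimum of `supNorm` over `F n`. -/
noncomputable def mu (n : ℕ) : ℝ := sInf (supNorm '' F n)

theorem supNorm_le {p : ℝ[X]} {C : ℝ} (h : ∀ x : ℝ, 0 ≤ x → x ≤ 1 → |p.eval x| ≤ C) :
    supNorm p ≤ C := by
  apply csSup_le
  · exact ⟨_, 0, ⟨le_rfl, zero_le_one⟩, rfl⟩
  · rintro _ ⟨x, ⟨h0, h1⟩, rfl⟩
    exact h x h0 h1

theorem le_supNorm (p : ℝ[X]) {x : ℝ} (h0 : 0 ≤ x) (h1 : x ≤ 1) : |p.eval x| ≤ supNorm p := by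
  apply le_csSup
  · exact (isCompact_Icc.image (p.continuous.abs)).bddAbove
  · exact ⟨x, ⟨h0, h1⟩, rfl⟩

theorem supNorm_nonneg (p : ℝ[X]) : 0 ≤ supNorm p :=
  (abs_nonneg _).trans (le_supNorm p le_rfl zero_le_one)

theorem mu_le {n : ℕ} {p : ℝ[X]} (hp : p ∈ F n) : mu n ≤ supNorm p := by
  apply csInf_le
  · exact ⟨0, by rintro _ ⟨q, -, rfl⟩; exact supNorm_nonneg q⟩
  · exact ⟨p, hp, rfl⟩

theorem one_mem (n : ℕ) : (1 : ℝ[X]) ∈ F n := by
  refine ⟨one_ne_zero, by simp, fun j => ?_⟩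
  rw [coeff_one]
  split_ifs
  · exact Or.inr (Or.inr rfl)
  · exact Or.inr (Or.inl rfl)

theorem le_mu {n : ℕ} {c : ℝ} (h : ∀ p ∈ F n, c ≤ supNorm p) : c ≤ mu n := by
  apply le_csInf
  · exact ⟨_, 1, one_mem n, rfl⟩
  · rintro _ ⟨p, hp, rfl⟩
    exact h p hp

/-- from coefficient functions to polynomials -/
theorem mu_le_of (n : ℕ) (b : ℕ → ℝ) (hb : ∀ j, b j = -1 ∨ b j = 0 ∨ b j = 1)
    (hbn : ∀ j, n < j → b j = 0) (hb0 : ∃ j, b j ≠ 0) (C : ℝ)
    (hC : ∀ x : ℝ, 0 ≤ x → x ≤ 1 → |∑ j ∈ Finset.range (n + 1), b j * x ^ j| ≤ C) :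
    mu n ≤ C := by
  set p : ℝ[X] := ∑ j ∈ Finset.range (n + 1), Polynomial.C (b j) * X ^ j with hp
  have hco : ∀ j, p.coeff j = b j := by
    intro j
    rw [hp, finsetSum_coeff]
    simp only [coeff_C_mul, coeff_X_pow, mul_ite, mul_one, mul_zero]
    rw [Finset.sum_ite_eq]
    split_ifs with h
    · rfl
    · rw [Finset.mem_range, not_lt] at h
      exact (hbn j (by omega)).symm
  have hpF : p ∈ F n := by
    refine ⟨?_, ?_, fun j => ?_⟩
    · rintro h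
      obtain ⟨j, hj⟩ := hb0
      apply hj
      rw [← hco j, h, coeff_zero]
    · rw [natDegree_le_iff_coeff_eq_zero]
      intro j hj
      rw [hco]
      exact hbn j hj
    · rw [hco]
      exact hb j
  refine (mu_le hpF).trans (supNorm_le fun x h0 h1 => ?_)
  have : p.eval x = ∑ j ∈ Finset.range (n + 1), b j * x ^ j := by
    rw [hp, eval_finsetSum]
    simp
  rw [this]
  exact hC x h0 h1

theorem upper (L : ℕ) (hL : 0 < L) (α : Fin L → ℝ) (hα : ∀ i, 0 < α i) (κ ρ c : ℝ) (hκ : 0 < κ)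
    (hκ1 : κ < 1) (hρ : 0 < ρ) (hρ1 : ρ < 1)
    (h : ∀ y, κ ≤ y → y ≤ 1 → ∏ i, |y - α i| / (y + α i) ≤ ρ)
    (hc : c < Real.sqrt (2 * (1 - κ) * Real.log 2 * Real.log (1 / ρ) / L)) :
    ∀ᶠ n : ℕ in atTop, mu n ≤ Real.exp (-(c * Real.sqrt n)) := by
  have hL' : (0 : ℝ) < L := by exact_mod_cast hL
  have hl2 : 0 < Real.log 2 := Real.log_pos (by norm_num)
  have hΛ : 0 < -Real.log ρ := by
    have := Real.log_neg hρ hρ1
    linarith
  have hlog : Real.log (1 / ρ) = -Real.log ρ := by rw [one_div, Real.log_inv]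
  rw [hlog] at hc
  set Λ := -Real.log ρ with hΛd
  set s := Real.sqrt (2 * (1 - κ) * Real.log 2 * Λ / L) with hs
  have hs0 : 0 < s := by
    apply Real.sqrt_pos.2
    have : 0 < 1 - κ := by linarith
    positivity
  obtain ⟨c', h1, h2⟩ := exists_between (max_lt hc hs0)
  have h3 : c < c' := (le_max_left _ _).trans_lt h1
  have h4 : 0 < c' := (le_max_right _ _).trans_lt h1
  have h5 : c' ^ 2 < 2 * (1 - κ) * Real.log 2 * Λ / L := by
    rwa [hs, Real.lt_sqrt h4.le] at h2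
  -- the nodes
  let β : ℕ → ℝ := fun k => α ⟨k % L, Nat.mod_lt _ hL⟩
  have hβ : ∀ k, 0 < β k := fun k => hα _
  obtain ⟨i₀, -, hi₀⟩ := Finset.exists_min_image (Finset.univ : Finset (Fin L)) α
    ⟨⟨0, hL⟩, Finset.mem_univ _⟩
  have hprod : ∀ y, κ ≤ y → y ≤ 1 → ∏ i ∈ Finset.range L, |y - β i| / (y + β i) ≤ ρ := by
    intro y hy hy1
    refine (le_of_eq ?_).trans (h y hy hy1)
    rw [Finset.prod_range]
    refine Finset.prod_congr rfl fun i _ => ?_
    have : β (i : ℕ) = α i := by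
      show α ⟨(i : ℕ) % L, _⟩ = α i
      congr 1
      exact Fin.ext (Nat.mod_eq_of_lt i.2)
    rw [this]
  have key := Pool.Agent.helper30.Mu.exists_small κ hκ hκ1 L hL β hβ (α i₀) (hα i₀)
    (fun k => hi₀ _ (Finset.mem_univ _)) ρ hρ hρ1 hprod (c' / Λ) (by positivity)
    (by
      rw [← hΛd]
      have e : (L : ℝ) * Λ * (c' / Λ) ^ 2 / 2 = L * c' ^ 2 / (2 * Λ) := by
        field_simp
      rw [e, div_lt_iff₀ (by positivity)]
      rw [lt_div_iff₀ hL'] at h5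
      linarith) c
    (by
      rw [← hΛd, div_mul_cancel₀ _ hΛ.ne']
      exact h3)
  filter_upwards [key] with n hn
  obtain ⟨b, hb, hbn, hb0, hbx⟩ := hn
  exact mu_le_of n b hb hbn hb0 _ hbx

theorem lower (n : ℕ) (hn : 1 ≤ n) :
    7 / 100 * Real.exp (-(5.59 * Real.sqrt n)) ≤ mu n := by
  apply le_mu
  rintro p ⟨hp0, hpn, hp⟩
  apply Pool.Agent.helper30.Mu.low n (by omega) p.coeff hp
  · refine ⟨p.natDegree, hpn, ?_⟩
    rw [coeff_natDegree]
    exact leadingCoeff_ne_zero.2 hp0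
  · intro x h0 h1
    have : ∑ j ∈ Finset.range (n + 1), p.coeff j * x ^ j = p.eval x := by
      rw [eval_eq_sum_range' (Nat.lt_succ_of_le hpn)]
    rw [this]
    exact le_supNorm p h0 h1

/-- **Explicit constants.** (A) every system of positive nodes whose Blaschke product of the half
line is at most `ρ` on `[κ, 1]` gives an upper bound for `μ n`; (B) the numerical bounds
`exp(-5.6 √n) ≤ μ n ≤ exp(-1.3 √n)` for all large `n`; (C) a lower bound for every `n ≥ 1`. -/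
theorem result :
    (∀ (L : ℕ) (α : Fin L → ℝ) (κ ρ c : ℝ), 0 < L → (∀ i, 0 < α i) → 0 < κ → κ < 1 → 0 < ρ →
      ρ < 1 → (∀ y ∈ Set.Icc κ 1, ∏ i, |y - α i| / (y + α i) ≤ ρ) →
      c < Real.sqrt (2 * (1 - κ) * Real.log 2 * Real.log (1 / ρ) / L) →
      ∀ᶠ n : ℕ in atTop, mu n ≤ Real.exp (-(c * Real.sqrt n))) ∧
    (∀ᶠ n : ℕ in atTop, Real.exp (-(5.6 * Real.sqrt n)) ≤ mu n ∧
      mu n ≤ Real.exp (-(1.3 * Real.sqrt n))) ∧
    (∀ n : ℕ, 1 ≤ n → 7 / 100 * Real.exp (-(5.59 * Real.sqrt n)) ≤ mu n) := by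
  have hA : ∀ (L : ℕ) (α : Fin L → ℝ) (κ ρ c : ℝ), 0 < L → (∀ i, 0 < α i) → 0 < κ → κ < 1 → 0 < ρ →
      ρ < 1 → (∀ y ∈ Set.Icc κ 1, ∏ i, |y - α i| / (y + α i) ≤ ρ) →
      c < Real.sqrt (2 * (1 - κ) * Real.log 2 * Real.log (1 / ρ) / L) →
      ∀ᶠ n : ℕ in atTop, mu n ≤ Real.exp (-(c * Real.sqrt n)) := by
    intro L α κ ρ c h1 h2 h3 h4 h5 h6 h7 h8
    exact upper L h1 α h2 κ ρ c h3 h4 h5 h6 (fun y hy hy1 => h7 y ⟨hy, hy1⟩) h8
  refine ⟨hA, ?_, lower⟩
  have hB := hA 4 ![191 / 200, 6967 / 10000, 4521 / 10000, 1649 / 5000] (63 / 200) (1 / 1250) 1.3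
    (by norm_num)
    (by
      intro i
      fin_cases i <;> simp)
    (by norm_num) (by norm_num) (by norm_num) (by norm_num)
    (by
      rintro y ⟨h1, h2⟩
      have h3 := Pool.Agent.helper30.Mu.nodes_le y h1 h2
      refine (le_of_eq ?_).trans h3
      rw [Fin.prod_univ_four]
      rfl)
    (by
      apply Real.lt_sqrt_of_sq_lt
      have h1 := Pool.Agent.helper30.Mu.log_1250
      have h2 := Real.log_two_gt_d9
      have h3 : Real.log (1 / (1 / 1250 : ℝ)) = Real.log 1250 := by norm_num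
      rw [h3]
      have h4 : (0.6931471803 : ℝ) * (72 / 7 * 0.6931471803) ≤ Real.log 2 * Real.log 1250 := by
        apply mul_le_mul h2.le _ (by norm_num) (by linarith)
        linarith
      have h5 : 2 * (1 - 63 / 200) * Real.log 2 * Real.log 1250 / ((4 : ℕ) : ℝ) =
          137 / 400 * (Real.log 2 * Real.log 1250) := by
        push_cast
        ring
      rw [h5]
      norm_num at h4 ⊢
      linarith)
  have hC := Pool.Agent.helper30.Mu.small (Real.log (100 / 7)) 0 0.01 (by norm_num)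
  filter_upwards [hB, hC, eventually_ge_atTop 1] with n h1 h2 h3
  refine ⟨?_, h1⟩
  refine le_trans ?_ (lower n h3)
  have h4 : (7 / 100 : ℝ) = Real.exp (-Real.log (100 / 7)) := by
    rw [Real.exp_neg, Real.exp_log (by norm_num)]
    norm_num
  rw [h4, ← Real.exp_add]
  apply Real.exp_le_exp.2
  linarith

end Pool.Agent.Results.MP_b88b3b_an.ExplicitBounds
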